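import Pool.Agent.Helper68.DS.Goals2

set_option autoImplicit false

/-!
# LEMJ: spaces of polynomials with vanishing Jacobians
-/

namespace Pool.Agent.Helper37.DS

open MvPolynomial Pool.Agent.Helper68.DS

/-- The coefficients of `X_i ∂_i F`. -/
theorem coeff_X_mul_pderiv (i : Fin 2) (F : MvPolynomial (Fin 2) ℂ) (s : Fin 2 →₀ ℕ) :
    coeff s (X i * pderiv i F) = (s i : ℂ) * coeff s F := by
  induction F using MvPolynomial.induction_on' with
  | monomial u a =>
    rw [X_mul_pderiv_monomial, coeff_smul, nsmul_eq_mul]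
    by_cases h : u = s
    · rw [h]
    · rw [coeff_monomial, if_neg h, mul_zero, mul_zero]
  | add p q hp hq =>
    rw [map_add, mul_add, coeff_add, coeff_add, hp, hq, mul_add]

/-- The lexicographic order. -/
noncomputable abbrev mo : MonomialOrder (Fin 2) := MonomialOrder.lex

theorem degree_X_mul_pderiv_le (i : Fin 2) (F : MvPolynomial (Fin 2) ℂ) :
    mo.toSyn (mo.degree (X i * pderiv i F)) ≤ mo.toSyn (mo.degree F) := by
  rw [MonomialOrder.degree_le_iff]
  intro c hc
  apply MonomialOrder.le_degree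
  rw [mem_support_iff, coeff_X_mul_pderiv] at hc
  rw [mem_support_iff]
  exact fun h => hc (by rw [h, mul_zero])

/-- Leading exponents of polynomials with vanishing Jacobian are proportional. -/
theorem proportional {F G : MvPolynomial (Fin 2) ℂ} (hF : F ≠ 0) (hG : G ≠ 0)
    (h : pderiv 0 F * pderiv 1 G - pderiv 1 F * pderiv 0 G = 0) :
    mo.degree F 0 * mo.degree G 1 = mo.degree F 1 * mo.degree G 0 := by
  have h1 : (X 0 * pderiv 0 F) * (X 1 * pderiv 1 G) - (X 1 * pderiv 1 F) * (X 0 * pderiv 0 G) =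
      (0 : MvPolynomial (Fin 2) ℂ) := by
    linear_combination (X 0 * X 1) * h
  have h2 := congrArg (coeff (mo.degree F + mo.degree G)) h1
  rw [coeff_sub, coeff_zero,
    MonomialOrder.coeff_mul_of_add_of_degree_le (degree_X_mul_pderiv_le 0 F)
      (degree_X_mul_pderiv_le 1 G),
    MonomialOrder.coeff_mul_of_add_of_degree_le (degree_X_mul_pderiv_le 1 F)
      (degree_X_mul_pderiv_le 0 G)] at h2
  simp only [coeff_X_mul_pderiv] at h2
  have hF' : coeff (mo.degree F) F ≠ 0 := (MonomialOrder.coeff_degree_ne_zero_iff).2 hF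
  have hG' : coeff (mo.degree G) G ≠ 0 := (MonomialOrder.coeff_degree_ne_zero_iff).2 hG
  have h3 : ((mo.degree F 0 : ℂ) * mo.degree G 1 - mo.degree F 1 * mo.degree G 0) *
      (coeff (mo.degree F) F * coeff (mo.degree G) G) = 0 := by
    linear_combination h2
  have h4 := (mul_eq_zero.1 h3).resolve_right (mul_ne_zero hF' hG')
  have h5 := sub_eq_zero.1 h4
  exact_mod_cast h5

theorem nat_eq {a b c d : ℕ} (h : a * d = b * c) (h2 : a + b = c + d) (h3 : 0 < a + b) :
    a = c ∧ b = d := by
  have h4 : a * (a + b) = c * (a + b) := by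
    calc a * (a + b) = a * (c + d) := by rw [h2]
      _ = a * c + a * d := by ring
      _ = a * c + b * c := by rw [h]
      _ = c * (a + b) := by ring
  have h5 := Nat.eq_of_mul_eq_mul_right h3 h4
  exact ⟨h5, by omega⟩

theorem LEMJ : LEMJ_stmt := by
  classical
  intro k P hP hJ
  -- the exponents
  let Q : ℕ → (Fin 2 →₀ ℕ) → Prop := fun n s => ∃ F ∈ P, F ≠ 0 ∧ mo.degree F = s ∧ s 0 + s 1 = n + 1
  let s : ℕ → (Fin 2 →₀ ℕ) := fun n => if h : ∃ t, Q n t then h.choose else 0
  have hs : ∀ n F, F ∈ P → F ≠ 0 → mo.degree F 0 + mo.degree F 1 = n + 1 → s n = mo.degree F := by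
    intro n F hF hF0 hn
    have h : ∃ t, Q n t := ⟨mo.degree F, F, hF, hF0, rfl, hn⟩
    have h1 : s n = h.choose := dif_pos h
    obtain ⟨G, hG, hG0, hG1, hG2⟩ := h.choose_spec
    rw [h1, ← hG1]
    rw [← hG1] at hG2
    have h2 := proportional hG0 hF0 (hJ G hG F hF)
    obtain ⟨h3, h4⟩ := nat_eq h2 (by omega) (by omega)
    ext i
    fin_cases i
    · exact h3
    · exact h4
  let L : ↥P →ₗ[ℂ] (Fin k → ℂ) := LinearMap.pi fun n : Fin k =>
    (lcoeff ℂ (s n)).comp P.subtype
  have hL : Function.Injective L := by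
    rw [← LinearMap.ker_eq_bot, LinearMap.ker_eq_bot']
    rintro ⟨F, hF⟩ hLF
    by_contra hne
    have hF0 : F ≠ 0 := fun h => hne (Subtype.ext h)
    have hc : coeff (mo.degree F) F ≠ 0 := (MonomialOrder.coeff_degree_ne_zero_iff).2 hF0
    have hle : mo.degree F 0 + mo.degree F 1 ≤ k := by
      have h1 := le_totalDegree ((mem_support_iff).2 hc)
      have h2 : ((mo.degree F).sum fun _ e => e) = mo.degree F 0 + mo.degree F 1 := by
        rw [Finsupp.sum_fintype _ _ (fun _ => rfl), Fin.sum_univ_two]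
      rw [h2] at h1
      exact h1.trans (hP F hF).1
    have hpos : 0 < mo.degree F 0 + mo.degree F 1 := by
      by_contra h0
      have h1 : mo.degree F = 0 := by
        ext i
        fin_cases i
        · show mo.degree F 0 = 0
          omega
        · show mo.degree F 1 = 0
          omega
      rw [h1] at hc
      exact hc (hP F hF).2
    obtain ⟨n, hn⟩ : ∃ n, mo.degree F 0 + mo.degree F 1 = n + 1 := ⟨_, (Nat.succ_pred_eq_of_pos hpos).symm⟩
    have h3 := congrFun hLF ⟨n, by omega⟩
    have h4 : coeff (s n) F = 0 := h3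
    rw [hs n F hF hF0 hn] at h4
    exact hc h4
  have := LinearMap.finrank_le_finrank_of_injective hL
  simpa using this

end Pool.Agent.Helper37.DS
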